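import Mathlib
import Pool.Agent.Helper717_IcoB.Exceptional

/-!
# Integral Hecke eigenvalues in weight zero: solvable polyhedral, or exactly the icosahedral statistics

Let `π` be a cuspidal automorphic representation of `GL_2` over `ℚ` which is algebraic of weight zero: up to a twist by
an integral power of `|det|` it is unitary and the parameter of `π_∞` is trivial on `ℂˣ`. Question Q1 predicts a
two-dimensional Galois representation of finite image attached to `π`. Two consequences of this prediction are that the
Hecke eigenvalues `a_p` are algebraic integers of a number field `E` and that the conjugate systems `σ (a_p)`,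
`σ : E → ℂ`, belong to cuspidal representations `π^σ` too. Conversely, for `E = ℚ` Sarnak (Maass cusp forms with
integer coefficients, 2002) and for quadratic `E` Brumley (Maass cusp forms with quadratic integer coefficients, 2003)
deduced from this that `π` is solvable polyhedral, where Q1 is known, or of icosahedral type.

We treat **all** number fields `E` (and all central characters): if `π` is not solvable polyhedral then

* for every unramified `p` the number `z_p = a_p² / ω(p)` (`= |a_p|²`) is a rational integer or a root of
  `z² - 3 z + 1`; in particular the coefficients `z_p² - 3 z_p + 1` of `Sym⁴ π ⊗ ω⁻²` are rational integers;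
* `|a_p|` takes the values `2, 0, 1, (√5 + 1) / 2, (√5 - 1) / 2` with the densities `1/60, 1/4, 1/3, 1/5, 1/5`: these are
  exactly the statistics of an icosahedral Artin representation (the group `A_5` has `1, 15, 20, 12, 12` elements in its
  five classes). In particular `E` contains `√5`;
* the exceptional primes, those for which `|a_p|` is not one of the five values, form a set of exponent less than one:
  `∑ |a_p|⁸ p^{-η} < ∞` over these `p`, for some `η < 1`. At all the other unramified `p` the class `Ad π_p` has
  finite order and `π_p` is tempered; so the Ramanujan conjecture holds for `π_p` for all `p ≤ X` with at most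
  `O(X^η)` exceptions.

What is used of the `π^σ` is listed in the structure `IsArithmeticSystem`, it is all known: unitarity, the Gelbart-Jacquet
lift to `GL_3` and the Kim lift to `GL_5` and their cuspidality (Kim-Shahidi), Rankin-Selberg theory for these and their
twists, and Ramakrishnan's multiplicity one theorem for `SL_2`.

The proof. Let `d` and `k` be the degrees of the coefficient fields of `Ad π` and of `Sym⁴ π ⊗ ω⁻²`. The set of the `p`
with `a_p = 0` is large: `F(z) ≥ log z` for a cubic polynomial `F` with negative mean, and the norm of `z_p ≠ 0` is at
least one. It is small if `d` and `k` are large: at these `p` all the conjugates of `Ad` are `-1` and those of `Sym⁴`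
are `1`, while the conjugates are orthogonal, so the density is at most `1 / (d + k)`. This gives `d + k < 6`, so `k = 1`
or `d = k = 2`. The second case is excluded by a quartic polynomial in `z, z'` of positive mean which is nonpositive at
all totally positive integers of all real quadratic fields. If `k = 1` then an irrational `z_p` is a root of
`z² - 3 z + 1`. If all `z_p` are rational, the moments force the values `0, 1, 3`, and the quadratic symbol of
`ℚ(|a_p|)` would be a Dirichlet character, which contradicts the mean of its product with `z_p²`. In the remaining case
the moments determine all the densities, as `(z - 1) z (z - 3) (z - 4) ≥ 0` at the integers `z ≥ 0`, and Landau's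
theorem, applied to a product of Rankin-Selberg `L`-functions with the coefficients `z (z - 1) (z - 4)²` at the primes
with `z = z_p ∈ ℤ` and `0` at the others, without zero or pole at `s = 1`, gives the last part.
-/

set_option autoImplicit false

namespace Pool.Agent.Results.MP_ef641d_nt.IcosahedralStatistics

open Pool.Agent.Helper717IcoB

open scoped Classical in
/-- **Arithmetic systems of Hecke eigenvalues of weight zero over `GL_2` have icosahedral statistics.** -/
theorem result {E : Type*} [Field E] [NumberField E] {S : Finset ℕ} {N : ℕ} {ω : DirichletCharacter E N} {a : ℕ → E}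
    (h : IsArithmeticSystem S N ω a) :
    (∀ p : ℕ, p.Prime → p ∉ S →
      (∃ m : ℤ, normSq ω a p = m) ∨ normSq ω a p ^ 2 - 3 * normSq ω a p + 1 = 0) ∧
    ∀ σ : E →+* ℂ,
      HasDensity S {p | ‖σ (a p)‖ = 2} (1 / 60) ∧
      HasDensity S {p | ‖σ (a p)‖ = 0} (1 / 4) ∧
      HasDensity S {p | ‖σ (a p)‖ = 1} (1 / 3) ∧
      HasDensity S {p | ‖σ (a p)‖ = (Real.sqrt 5 + 1) / 2} (1 / 5) ∧
      HasDensity S {p | ‖σ (a p)‖ = (Real.sqrt 5 - 1) / 2} (1 / 5) ∧
      ∃ η : ℝ, η < 1 ∧ Summable fun p : PrimeOut S =>
        if ‖σ (a p)‖ ∈ icoValues then 0 else ‖σ (a p)‖ ^ 8 * ((p : ℕ) : ℝ) ^ (-η) := by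
  refine ⟨fun p hp hpS => ?_, fun σ => ⟨density_two h σ, density_zero h σ, density_one h σ,
    density_golden h σ 1 (Or.inl rfl), ?_, exceptional h σ⟩⟩
  · rcases yy_cases h hp hpS with ⟨m, -, hm⟩ | ⟨h1, -⟩
    · exact Or.inl ⟨m + 1, by rw [normSq_eq, hm]; push_cast; ring⟩
    · refine Or.inr ?_
      rw [normSq_eq]
      linear_combination h1
  · have := density_golden h σ (-1) (Or.inr rfl)
    simpa [sub_eq_add_neg] using this

end Pool.Agent.Results.MP_ef641d_nt.IcosahedralStatistics
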